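import Pool.Agent.Q292.LC.Stm5
import Pool.Agent.Q151.LC.Walk
import Pool.Agent.Q187.LC.Tch
import Pool.Agent.Q154.LC.Pai

/-!
# JOB LC-JMP: the number of jumps in a unit
-/

set_option autoImplicit false

namespace Pool.Agent.Q66.LC

open Q292.LC Finset Equiv Matrix

section

variable {V : Type} [DecidableEq V]

/-- number of touching steps in the window `[s, N)` -/
def tc (e : ℕ → V × V) (ω : ℕ → Bool) (s N : ℕ) (x : V) : ℕ :=
  ((Finset.Ico s N).filter fun k => tch e ω {x} k).card

theorem tch_congr (e : ℕ → V × V) (ω ω' : ℕ → Bool) (x : V) (k : ℕ) (h : ∀ i < k, ω i = ω' i) :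
    tch e ω {x} k ↔ tch e ω' {x} k := by
  rw [Pool.Agent.Q151.LC.tch_single, Pool.Agent.Q151.LC.tch_single, Pool.Agent.Q154.LC.gp_congr e ω ω' k h]

theorem jumps_congr (e : ℕ → V × V) (ω ω' : ℕ → Bool) (s N : ℕ) (x : V) (h : ∀ i < N, ω i = ω' i) :
    jumps e ω s N x = jumps e ω' s N x := by
  unfold jumps
  congr 1
  apply Finset.filter_congr
  intro k hk
  rw [Finset.mem_Ico] at hk
  rw [h k hk.2, tch_congr e ω ω' x k (fun i hi => h i (by omega))]

theorem tc_congr (e : ℕ → V × V) (ω ω' : ℕ → Bool) (s N : ℕ) (x : V) (h : ∀ i < N, ω i = ω' i) :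
    tc e ω s N x = tc e ω' s N x := by
  unfold tc
  congr 1
  apply Finset.filter_congr
  intro k hk
  rw [Finset.mem_Ico] at hk
  exact tch_congr e ω ω' x k (fun i hi => h i (by omega))

theorem jumps_succ (e : ℕ → V × V) (ω : ℕ → Bool) (s N : ℕ) (x : V) (hs : s ≤ N) :
    jumps e ω s (N + 1) x = jumps e ω s N x + if ω N = true ∧ tch e ω {x} N then 1 else 0 := by
  unfold jumps
  rw [← Finset.insert_Ico_right_eq_Ico_add_one hs, Finset.filter_insert]
  split_ifs with h
  · rw [Finset.card_insert_of_notMem]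
    intro h2
    rw [Finset.mem_filter, Finset.mem_Ico] at h2
    omega
  · rfl

theorem tc_succ (e : ℕ → V × V) (ω : ℕ → Bool) (s N : ℕ) (x : V) (hs : s ≤ N) :
    tc e ω s (N + 1) x = tc e ω s N x + if tch e ω {x} N then 1 else 0 := by
  unfold tc
  rw [← Finset.insert_Ico_right_eq_Ico_add_one hs, Finset.filter_insert]
  split_ifs with h
  · rw [Finset.card_insert_of_notMem]
    intro h2
    rw [Finset.mem_filter, Finset.mem_Ico] at h2
    omega
  · rfl

theorem mart (e : ℕ → V × V) (δ b : ℝ) (ha : 0 < 1 + δ * (b - 1)) (x : V) (s : ℕ) :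
    ∀ r : ℕ, EE (s + r) δ (fun ω => b ^ jumps e ω s (s + r) x * ((1 + δ * (b - 1))⁻¹) ^ tc e ω s (s + r) x) = 1 := by
  intro r
  induction r with
  | zero =>
    have : (fun ω : ℕ → Bool => b ^ jumps e ω s (s + 0) x * ((1 + δ * (b - 1))⁻¹) ^ tc e ω s (s + 0) x) =
        fun _ => 1 := by
      funext ω
      unfold jumps tc
      simp
    rw [this]
    exact Pool.Agent.Q68.LC.EE_const _ _ _
  | succ r ih =>
    set N := s + r with hN
    have hsN : s ≤ N := by omega
    rw [show s + (r + 1) = N + 1 by omega, Pool.Agent.Q68.LC.EE_succ]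
    have h1 : EE N δ (fun ω => b ^ jumps e ω s (N + 1) x * ((1 + δ * (b - 1))⁻¹) ^ tc e ω s (N + 1) x) =
        EE N δ (fun ω => b ^ jumps e ω s N x * ((1 + δ * (b - 1))⁻¹) ^ tc e ω s N x *
          (if tch e ω {x} N then (1 + δ * (b - 1))⁻¹ else 1)) := by
      apply Pool.Agent.Q68.LC.EE_congr
      intro ω hω
      rw [jumps_succ e ω s N x hsN, tc_succ e ω s N x hsN, hω N (le_refl N)]
      split_ifs with h2 h3 h3 <;> simp_all [pow_succ]
      ring
    have h2 : EE N δ (fun ω => b ^ jumps e (Function.update ω N true) s (N + 1) x *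
        ((1 + δ * (b - 1))⁻¹) ^ tc e (Function.update ω N true) s (N + 1) x) =
        EE N δ (fun ω => b ^ jumps e ω s N x * ((1 + δ * (b - 1))⁻¹) ^ tc e ω s N x *
          (if tch e ω {x} N then b * (1 + δ * (b - 1))⁻¹ else 1)) := by
      apply Pool.Agent.Q68.LC.EE_congr
      intro ω hω
      have hup : ∀ i < N, Function.update ω N true i = ω i := fun i hi => Function.update_of_ne (by omega) _ _
      rw [jumps_succ e _ s N x hsN, tc_succ e _ s N x hsN, jumps_congr e _ ω s N x hup, tc_congr e _ ω s N x hup,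
        Function.update_self]
      have h3 := tch_congr e (Function.update ω N true) ω x N hup
      by_cases h4 : tch e ω {x} N
      · rw [if_pos ⟨rfl, h3.2 h4⟩, if_pos (h3.2 h4), if_pos h4, pow_succ, pow_succ]
        ring
      · rw [if_neg (fun h5 => h4 (h3.1 h5.2)), if_neg (fun h5 => h4 (h3.1 h5)), if_neg h4]
        simp
    rw [h1, h2, ← Pool.Agent.Q68.LC.EE_smul, ← Pool.Agent.Q68.LC.EE_smul, ← Pool.Agent.Q68.LC.EE_add]
    refine Eq.trans ?_ ih
    congr 1
    funext ω
    split_ifs with h3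
    · have : (1 - δ) * (1 + δ * (b - 1))⁻¹ + δ * (b * (1 + δ * (b - 1))⁻¹) = 1 := by
        have h4 : (1 + δ * (b - 1)) ≠ 0 := ha.ne'
        field_simp
        ring
      calc (1 - δ) * (b ^ jumps e ω s N x * (1 + δ * (b - 1))⁻¹ ^ tc e ω s N x * (1 + δ * (b - 1))⁻¹) +
          δ * (b ^ jumps e ω s N x * (1 + δ * (b - 1))⁻¹ ^ tc e ω s N x * (b * (1 + δ * (b - 1))⁻¹))
          = b ^ jumps e ω s N x * (1 + δ * (b - 1))⁻¹ ^ tc e ω s N x *
            ((1 - δ) * (1 + δ * (b - 1))⁻¹ + δ * (b * (1 + δ * (b - 1))⁻¹)) := by ring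
        _ = b ^ jumps e ω s N x * (1 + δ * (b - 1))⁻¹ ^ tc e ω s N x := by rw [this, mul_one]
    · ring

/-- a function of the first `N` coins has the same mean over more coins -/
theorem EE_more (N : ℕ) (δ : ℝ) (F : (ℕ → Bool) → ℝ)
    (hF : ∀ k, N ≤ k → ∀ ω, F (Function.update ω k true) = F ω) :
    ∀ r, EE (N + r) δ F = EE N δ F := by
  intro r
  induction r with
  | zero => rfl
  | succ r ih =>
    rw [show N + (r + 1) = (N + r) + 1 by omega, Pool.Agent.Q68.LC.EE_succ]
    have : (fun ω => F (Function.update ω (N + r) true)) = F := by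
      funext ω
      exact hF (N + r) (by omega) ω
    rw [this, ih]
    ring

end

open Classical in
theorem jmp : S_JMP := by
  intro d hd
  refine ⟨Real.exp (4 * d * (Real.exp 2 - 1)), ?_, ?_⟩
  · apply Real.one_le_exp
    have h1 : (1 : ℝ) ≤ Real.exp 2 := Real.one_le_exp (by norm_num)
    have h2 : (0 : ℝ) ≤ d := Nat.cast_nonneg d
    have h3 : 0 ≤ Real.exp 2 - 1 := by linarith
    positivity
  intro L _ hL σ hσ q K j ρ δ x hδ hCδ hδq hjK
  have hd1 : (1 : ℝ) ≤ d := by exact_mod_cast hd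
  have he2 : (1 : ℝ) ≤ Real.exp 2 := Real.one_le_exp (by norm_num)
  have he3 : (2 : ℝ) ≤ Real.exp 2 - 1 := by
    have := Real.add_one_le_exp (2 : ℝ)
    linarith
  set b : ℝ := Real.exp 2 with hb
  set y : ℝ := 4 * d * (b - 1) with hy
  have hy0 : 1 ≤ y := by rw [hy]; nlinarith
  have hC1 : y ≤ Real.exp y := by
    have := Real.add_one_le_exp y
    linarith
  have hδy : δ * y ≤ 1 := by
    calc δ * y ≤ δ * Real.exp y := mul_le_mul_of_nonneg_left hC1 hδ.le
      _ = Real.exp y * δ := by ring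
      _ ≤ 1 := hCδ
  have hδ1 : δ ≤ 1 := by nlinarith
  set a : ℝ := 1 + δ * (b - 1) with ha
  have hδb : 0 ≤ δ * (b - 1) := mul_nonneg hδ.le (by linarith)
  have ha1 : 1 ≤ a := by rw [ha]; linarith
  have ha0 : 0 < a := by linarith
  have hae : a ≤ Real.exp (δ * (b - 1)) := by
    have := Real.add_one_le_exp (δ * (b - 1))
    rw [ha]; linarith
  -- a^(2d) ≤ e
  have ha2 : a ^ (2 * d) ≤ Real.exp 1 := by
    calc a ^ (2 * d) ≤ Real.exp (δ * (b - 1)) ^ (2 * d) := pow_le_pow_left₀ ha0.le hae _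
      _ = Real.exp ((2 * d : ℕ) * (δ * (b - 1))) := by rw [Real.exp_nat_mul]
      _ ≤ Real.exp 1 := by
          apply Real.exp_le_exp.2
          push_cast
          rw [hy] at hδy
          nlinarith
  have haq : a ^ (2 * d * q) ≤ Real.exp y := by
    calc a ^ (2 * d * q) ≤ Real.exp (δ * (b - 1)) ^ (2 * d * q) := pow_le_pow_left₀ ha0.le hae _
      _ = Real.exp ((2 * d * q : ℕ) * (δ * (b - 1))) := by rw [Real.exp_nat_mul]
      _ ≤ Real.exp y := by
          apply Real.exp_le_exp.2
          push_cast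
          rw [hy]
          have h1 : 0 ≤ 2 * (d : ℝ) * (b - 1) := by nlinarith
          calc 2 * (d : ℝ) * q * (δ * (b - 1)) = (δ * q) * (2 * d * (b - 1)) := by ring
            _ ≤ 2 * (2 * d * (b - 1)) := mul_le_mul_of_nonneg_right hδq h1
            _ = 4 * d * (b - 1) := by ring
  set e := ed ∘ σ with he
  set m := q * ms d L with hm
  set s := j * m with hs
  have hjs : (j + 1) * m = s + m := by rw [hs]; ring
  rw [hjs]
  have hKm : ∃ r, K * m = (s + m) + r := by
    refine ⟨K * m - (s + m), ?_⟩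
    have : (j + 1) * m ≤ K * m := Nat.mul_le_mul_right m hjK
    rw [hjs] at this
    omega
  obtain ⟨r, hr⟩ := hKm
  -- touching steps
  have htc : ∀ ω : ℕ → Bool, tc e ω s (s + m) x ≤ 2 * d * (q + jumps e ω s (s + m) x) := by
    intro ω
    have h1 := Pool.Agent.Q187.LC.Tch.tch d L hL σ hσ (sh s ω) q (gp e ω s x)
    have hsh : sh s e = e := by
      rw [he, hs, hm, show j * (q * ms d L) = (j * q) * ms d L by ring]
      exact Pool.Agent.Q151.LC.sh_per hσ (j * q)
    have h2 : jumps e ω s (s + m) x = jumps e (sh s ω) 0 m (gp e ω s x) := by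
      rw [Pool.Agent.Q151.LC.jumps_shift e ω x s m, hsh]
    have h3 : tc e ω s (s + m) x = ((Finset.range m).filter fun k => tch e (sh s ω) {gp e ω s x} k).card := by
      unfold tc
      symm
      apply card_nbij' (fun k => s + k) (fun k => k - s)
      · intro k hk
        simp only [mem_coe, mem_filter, mem_Ico, mem_range] at hk ⊢
        refine ⟨⟨by omega, by omega⟩, ?_⟩
        rw [Pool.Agent.Q151.LC.tch_shift, hsh]
        exact hk.2
      · intro k hk
        simp only [mem_coe, mem_filter, mem_Ico, mem_range] at hk ⊢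
        refine ⟨by omega, ?_⟩
        have h4 := (Pool.Agent.Q151.LC.tch_shift e ω x s (k - s)).1
        rw [show s + (k - s) = k by omega, hsh] at h4
        exact h4 hk.2
      · intro k _
        simp
      · intro k hk
        simp only [mem_coe, mem_filter, mem_Ico] at hk
        show s + (k - s) = k
        omega
    rw [h2, h3]
    exact h1
  -- pointwise bound
  have hpt : ∀ ω : ℕ → Bool, (if ρ < jumps e ω s (s + m) x then (1 : ℝ) else 0) ≤
      (Real.exp y * Real.exp (-(ρ : ℝ))) * (b ^ jumps e ω s (s + m) x * (a⁻¹) ^ tc e ω s (s + m) x) := by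
    intro ω
    set J := jumps e ω s (s + m) x with hJ
    set T := tc e ω s (s + m) x with hT
    have hb0 : 0 < b := Real.exp_pos 2
    split_ifs with h
    · have h1 : (a⁻¹) ^ (2 * d * (q + J)) ≤ (a⁻¹) ^ T :=
        pow_le_pow_of_le_one (by positivity) (inv_le_one_of_one_le₀ ha1) (htc ω)
      have h2 : (a⁻¹) ^ (2 * d * (q + J)) = (a ^ (2 * d * q))⁻¹ * ((a ^ (2 * d))⁻¹) ^ J := by
        rw [mul_add, pow_add, inv_pow, pow_mul (a⁻¹) (2 * d) J, inv_pow]
      have h3 : Real.exp (J : ℝ) * (Real.exp y)⁻¹ ≤ b ^ J * (a⁻¹) ^ T := by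
        calc Real.exp (J : ℝ) * (Real.exp y)⁻¹ ≤ (b * (Real.exp 1)⁻¹) ^ J * (a ^ (2 * d * q))⁻¹ := by
              have h4 : b * (Real.exp 1)⁻¹ = Real.exp 1 := by
                rw [hb, ← Real.exp_neg, ← Real.exp_add]
                norm_num
              rw [h4, ← Real.exp_nat_mul, mul_one]
              apply mul_le_mul_of_nonneg_left _ (Real.exp_pos _).le
              exact inv_anti₀ (by positivity) haq
          _ = b ^ J * ((a ^ (2 * d * q))⁻¹ * ((Real.exp 1)⁻¹) ^ J) := by rw [mul_pow]; ring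
          _ ≤ b ^ J * ((a ^ (2 * d * q))⁻¹ * ((a ^ (2 * d))⁻¹) ^ J) := by
              apply mul_le_mul_of_nonneg_left _ (by positivity)
              apply mul_le_mul_of_nonneg_left _ (by positivity)
              apply pow_le_pow_left₀ (by positivity)
              exact inv_anti₀ (by positivity) ha2
          _ = b ^ J * (a⁻¹) ^ (2 * d * (q + J)) := by rw [h2]
          _ ≤ b ^ J * (a⁻¹) ^ T := mul_le_mul_of_nonneg_left h1 (by positivity)
      have h5 : (1 : ℝ) ≤ Real.exp (-(ρ : ℝ)) * Real.exp (J : ℝ) := by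
        rw [← Real.exp_add]
        apply Real.one_le_exp
        have : (ρ : ℝ) ≤ J := by exact_mod_cast h.le
        linarith
      calc (1 : ℝ) ≤ Real.exp (-(ρ : ℝ)) * Real.exp (J : ℝ) := h5
        _ = (Real.exp y * Real.exp (-(ρ : ℝ))) * (Real.exp (J : ℝ) * (Real.exp y)⁻¹) := by
            have : Real.exp y ≠ 0 := (Real.exp_pos y).ne'
            field_simp
        _ ≤ _ := mul_le_mul_of_nonneg_left h3 (by positivity)
    · positivity
  have hmart := mart e δ b (by rw [← ha]; exact ha0) x s m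
  rw [← ha] at hmart
  calc EE (K * m) δ (fun ω => if ρ < jumps e ω s (s + m) x then 1 else 0)
      ≤ EE (K * m) δ (fun ω => (Real.exp y * Real.exp (-(ρ : ℝ))) *
        (b ^ jumps e ω s (s + m) x * (a⁻¹) ^ tc e ω s (s + m) x)) :=
        Pool.Agent.Q68.LC.EE_mono hδ.le hδ1 hpt
    _ = (Real.exp y * Real.exp (-(ρ : ℝ))) *
        EE (K * m) δ (fun ω => b ^ jumps e ω s (s + m) x * (a⁻¹) ^ tc e ω s (s + m) x) :=
        Pool.Agent.Q68.LC.EE_smul _ _ _ _
    _ = (Real.exp y * Real.exp (-(ρ : ℝ))) * 1 := by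
        congr 1
        rw [hr, EE_more (s + m) δ _ _ r]
        · exact hmart
        · intro k hk ω
          have hup : ∀ i < s + m, Function.update ω k true i = ω i :=
            fun i hi => Function.update_of_ne (by omega) _ _
          rw [jumps_congr e _ ω s (s + m) x hup, tc_congr e _ ω s (s + m) x hup]
    _ = Real.exp y * Real.exp (-(ρ : ℝ)) := mul_one _

end Pool.Agent.Q66.LC
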